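import Pool.Agent.Helper85.LN.Goals
import Pool.Agent.Helper5.GapBasic

/-!
Project LN (MP_d0c558_al), packet GT2: polynomial growth from a reachable closed set of polynomial
growth.
-/

set_option autoImplicit false

namespace Pool.Agent.Helper55.LN

open Pool.Agent.Helper85.LN Pool.Agent.Helper5.Gap

theorem secw_length {Q X : Type*} (A : Auto Q X) (w : List (S Q)) (u : List X) :
    (secw A w u).length = w.length := by
  induction u generalizing w with
  | nil => rfl
  | cons a u ih =>
    change (secw A (A.toWA.scw w a) u).length = w.length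
    rw [ih, A.scw_length]

theorem val_append_apply {Q X : Type*} (A : Auto Q X) (w : List (S Q)) (u x : List X) :
    A.val w (u ++ x) = A.val w u ++ A.val (secw A w u) x := by
  induction u generalizing w with
  | nil =>
    rw [A.val_apply_nil]
    rfl
  | cons a u ih =>
    rw [List.cons_append, A.val_apply_cons, ih, A.val_apply_cons]
    rfl

/-- elements of the ball are values of words -/
theorem exists_word {Q X : Type*} (A : Auto Q X) (n : ℕ) (g : Equiv.Perm (List X))
    (hg : g ∈ ball (Set.range A.perm) n) : ∃ w : List (S Q), w.length ≤ n ∧ A.val w = g := by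
  obtain ⟨l, hl, hx, rfl⟩ := hg
  suffices h : ∀ l : List (Equiv.Perm (List X)),
      (∀ x ∈ l, x ∈ Set.range A.perm ∨ x⁻¹ ∈ Set.range A.perm) →
      ∃ w : List (S Q), w.length = l.length ∧ A.val w = l.prod by
    obtain ⟨w, hw, hv⟩ := h l hx
    exact ⟨w, hw.trans_le hl, hv⟩
  intro l
  induction l with
  | nil => exact fun _ => ⟨[], rfl, rfl⟩
  | cons a l ih =>
    intro h
    obtain ⟨w, hw, hv⟩ := ih fun x hx => h x (List.mem_cons_of_mem _ hx)
    rcases h a (List.mem_cons_self) with ⟨q, hq⟩ | ⟨q, hq⟩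
    · refine ⟨(q, true) :: w, by simp [hw], ?_⟩
      rw [A.val_cons, hv, List.prod_cons, ← hq]
      rfl
    · refine ⟨(q, false) :: w, by simp [hw], ?_⟩
      rw [A.val_cons, hv, List.prod_cons]
      congr 1
      change (A.perm q)⁻¹ = a
      rw [hq, inv_inv]

theorem val_mem_ball {Q X : Type*} (A : Auto Q X) (T : Set Q) (n : ℕ) (w : List (S Q))
    (hw : w.length ≤ n) (hT : ∀ s ∈ w, s.1 ∈ T) : A.val w ∈ ball (A.perm '' T) n := by
  refine ⟨w.map A.ps, by simpa using hw, ?_, rfl⟩
  intro x hx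
  obtain ⟨⟨q, b⟩, hs, rfl⟩ := List.mem_map.1 hx
  have hq : q ∈ T := hT _ hs
  cases b
  · right
    exact ⟨q, hq, by simp [Auto.ps]⟩
  · left
    exact ⟨q, hq, by simp [Auto.ps]⟩

theorem lists_finite (d L : ℕ) : {u : List (Fin d) | u.length = L}.Finite :=
  List.finite_length_eq (Fin d) L

theorem lists_ncard (d L : ℕ) : {u : List (Fin d) | u.length = L}.ncard = d ^ L := by
  have h : Nat.card {u : List (Fin d) // u.length = L} = d ^ L := by
    have h1 : Nat.card (List.Vector (Fin d) L) = d ^ L := by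
      rw [Nat.card_eq_fintype_card, card_vector, Fintype.card_fin]
    exact h1
  exact h

theorem run_append {Q X : Type*} (A : Auto Q X) (q : Q) (u v : List X) :
    A.run q (u ++ v) = A.run (A.run q u) v := by
  simp [Auto.run]

theorem run_mem {Q X : Type*} (A : Auto Q X) (T : Set Q) (hT : ∀ q ∈ T, ∀ a, A.tr q a ∈ T)
    (u : List X) : ∀ q ∈ T, A.run q u ∈ T := by
  induction u with
  | nil => exact fun q hq => hq
  | cons a u ih => exact fun q hq => ih _ (hT q hq a)

theorem two_mul_pow_le (X : ℕ) (hX : 1 ≤ X) : 2 * (X - 1) ^ X ≤ X ^ X := by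
  obtain ⟨Y, rfl⟩ := Nat.exists_eq_add_of_le' hX
  rw [Nat.add_sub_cancel]
  have h1 : Y ^ (Y + 1) + (Y + 1) * Y ^ Y ≤ (Y + 1) ^ (Y + 1) := by
    rw [add_pow (R := ℕ) Y 1 (Y + 1), Finset.sum_range_succ, Finset.sum_range_succ]
    have h2 : (Y + 1).choose Y = Y + 1 := by
      rw [Nat.choose_succ_self_right]
    have h3 : (Y + 1).choose (Y + 1) = 1 := Nat.choose_self _
    rw [h2, h3]
    simp only [one_pow, mul_one, Nat.cast_id]
    have h4 : 0 ≤ ∑ x ∈ Finset.range Y, Y ^ x * (Y + 1).choose x := Nat.zero_le _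
    nlinarith
  have h2 : Y ^ (Y + 1) ≤ (Y + 1) * Y ^ Y := by
    rw [pow_succ, mul_comm]
    exact Nat.mul_le_mul_right _ (Nat.le_succ _)
  omega

theorem exists_k (X : ℕ) (hX : 1 ≤ X) (N : ℕ) (hN : 1 ≤ N) :
    ∃ k : ℕ, N * (X - 1) ^ k < X ^ k ∧ X ^ k ≤ (2 * N) ^ (X * X) := by
  set l := Nat.log 2 N + 1 with hl
  have h1 : N < 2 ^ l := Nat.lt_pow_succ_log_self (by norm_num) N
  have h2 : 2 ^ l ≤ 2 * N := by
    rw [hl, pow_succ, mul_comm]
    exact Nat.mul_le_mul_left 2 (Nat.pow_log_le_self 2 (by omega))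
  have h3 : 2 ^ l * (X - 1) ^ (X * l) ≤ X ^ (X * l) := by
    rw [pow_mul, pow_mul, ← mul_pow]
    exact Nat.pow_le_pow_left (two_mul_pow_le X hX) l
  refine ⟨X * l, ?_, ?_⟩
  · rcases Nat.eq_zero_or_pos ((X - 1) ^ (X * l)) with h0 | h0
    · rw [h0, mul_zero]
      exact Nat.pow_pos hX
    · exact (Nat.mul_lt_mul_of_pos_right h1 h0).trans_le h3
  · have h4 : X ≤ 2 ^ X := Nat.lt_two_pow_self.le
    calc X ^ (X * l) ≤ (2 ^ X) ^ (X * l) := Nat.pow_le_pow_left h4 _
      _ = (2 ^ l) ^ (X * X) := by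
        rw [← pow_mul, ← pow_mul]
        congr 1
        ring
      _ ≤ (2 * N) ^ (X * X) := Nat.pow_le_pow_left h2 _

/-- (GT2) polynomial growth from a reachable closed set of polynomial growth -/
theorem gt2 : S_GT2 := by
  intro hGT1 m d A hLN hR
  obtain ⟨T, hT, hreach, C, D, hCD⟩ := hR
  rcases Nat.eq_zero_or_pos d with rfl | hd
  · refine ⟨1, 0, fun n => ?_⟩
    rw [pow_zero, mul_one]
    have hs : Subsingleton (List (Fin 0)) := by
      constructor
      intro a b
      cases a with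
      | nil =>
        cases b with
        | nil => rfl
        | cons x _ => exact x.elim0
      | cons x _ => exact x.elim0
    have hs2 : Subsingleton (Equiv.Perm (List (Fin 0))) := inferInstance
    unfold growth
    exact Set.ncard_le_one_of_subsingleton _
  -- words of equal length leading to `T`
  choose u hu using hreach
  set M : ℕ := ∑ q, (u q).length with hM
  have hMle : ∀ q, (u q).length ≤ M := fun q =>
    Finset.single_le_sum (f := fun q => (u q).length) (fun _ _ => Nat.zero_le _)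
      (Finset.mem_univ q)
  have hreach' : ∀ q, ∃ u : List (Fin d), u.length = M ∧ A.run q u ∈ T := by
    intro q
    refine ⟨u q ++ List.replicate (M - (u q).length) ⟨0, hd⟩, ?_, ?_⟩
    · rw [List.length_append, List.length_replicate]
      have := hMle q
      omega
    · rw [run_append]
      exact run_mem A T hT _ _ (hu q)
  set X : ℕ := d ^ M with hX
  have hX1 : 1 ≤ X := Nat.pow_pos hd
  refine ⟨2 ^ (X * X) * 2 ^ (X * X) * C, X * X + X * X + D, fun n => ?_⟩
  obtain ⟨k, hk1, hk2⟩ := exists_k X hX1 (n + 1) (by omega)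
  have hkM : d ^ (k * M) = X ^ k := by
    rw [hX, ← pow_mul, mul_comm]
  set P : Set (List (Fin d)) := {u | u.length = k * M} with hP
  have hPf : P.Finite := lists_finite d (k * M)
  have hPc : P.ncard = X ^ k := (lists_ncard d (k * M)).trans hkM
  have hBf : (ball (A.perm '' T) n).Finite := ball_finite ((Set.toFinite T).image _) n
  -- good lists
  have hgood : ∀ w : List (S (Fin m)), w.length ≤ n → ∃ v ∈ P, ∀ s ∈ secw A w v, s.1 ∈ T := by
    intro w hw
    by_contra hcon
    push Not at hcon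
    have h1 := hGT1 m d A T M k w hT hreach'
    have h2 : P ⊆ {u : List (Fin d) | u.length = k * M ∧ ∃ s ∈ secw A w u, s.1 ∉ T} :=
      fun v hv => ⟨hv, hcon v hv⟩
    have h3 : ({u : List (Fin d) | u.length = k * M ∧ ∃ s ∈ secw A w u, s.1 ∉ T}).Finite :=
      hPf.subset fun v hv => hv.1
    have h4 := Set.ncard_le_ncard h2 h3
    rw [hPc] at h4
    have h5 : w.length * (d ^ M - 1) ^ k ≤ (n + 1) * (X - 1) ^ k :=
      Nat.mul_le_mul_right _ (by omega)
    omega
  have key : ∀ g : Equiv.Perm (List (Fin d)), g ∈ ball (Set.range A.perm) n →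
      ∃ p : List (Fin d) × List (Fin d) × Equiv.Perm (List (Fin d)),
        p ∈ P ×ˢ (P ×ˢ ball (A.perm '' T) n) ∧ ∀ x, g (p.1 ++ x) = p.2.1 ++ p.2.2 x := by
    intro g hg
    obtain ⟨w, hw, rfl⟩ := exists_word A n g hg
    obtain ⟨v, hv, hvT⟩ := hgood w hw
    refine ⟨(v, A.val w v, A.val (secw A w v)), ⟨hv, ?_, ?_⟩, fun x => ?_⟩
    · change (A.val w v).length = k * M
      rw [A.val_length]
      exact hv
    · exact val_mem_ball A T n _ ((secw_length A w v).trans_le hw) hvT
    · exact val_append_apply A w v x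
  choose! f hf1 hf2 using key
  have hG : ∀ g ∈ ball (Set.range A.perm) n, g ∈ A.G := by
    intro g hg
    obtain ⟨w, _, rfl⟩ := exists_word A n g hg
    exact A.val_mem w
  have hinj : Set.InjOn f (ball (Set.range A.perm) n) := by
    intro g hg h hh hgh
    have h1 := hf2 g hg
    have h2 := hf2 h hh
    rw [← hgh] at h2
    have h3 : h⁻¹ * g = 1 := by
      refine hLN _ (A.G.mul_mem (A.G.inv_mem (hG h hh)) (hG g hg)) (f g).1 fun x => ?_
      rw [Equiv.Perm.mul_apply, h1, ← h2]
      exact h.symm_apply_apply _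
    exact (inv_mul_eq_one.1 h3).symm
  have h6 : growth (Set.range A.perm) n ≤ X ^ k * (X ^ k * growth (A.perm '' T) n) := by
    unfold growth
    have h7 := Set.ncard_le_ncard_of_injOn f hf1 hinj (hPf.prod (hPf.prod hBf))
    rwa [Set.ncard_prod, Set.ncard_prod, hPc] at h7
  calc growth (Set.range A.perm) n ≤ X ^ k * (X ^ k * growth (A.perm '' T) n) := h6
    _ ≤ (2 * (n + 1)) ^ (X * X) * ((2 * (n + 1)) ^ (X * X) * (C * (n + 1) ^ D)) :=
      Nat.mul_le_mul hk2 (Nat.mul_le_mul hk2 (hCD n))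
    _ = 2 ^ (X * X) * 2 ^ (X * X) * C * (n + 1) ^ (X * X + X * X + D) := by
      rw [mul_pow, pow_add, pow_add]
      ring

end Pool.Agent.Helper55.LN
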