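import Pool.Agent.Helper64.LN.GoalsC

set_option autoImplicit false
set_option linter.unusedSectionVars false

/-! Packet LN-T0 (MP_2b9d24_gt): existence of the twists and of the isotopy between them. -/

open Topology Filter Set Metric
open Pool.Agent.Helper64.LN

namespace Pool.Agent.Helper55.LN

universe v

theorem t0_norm (χ : ℝ → ℝ) (z : ℂ) : ‖twm χ z‖ = ‖z‖ := by
  have h : (2 * Real.pi * Complex.I * (χ ‖z‖ : ℂ)) = ((2 * Real.pi * χ ‖z‖ : ℝ) : ℂ) * Complex.I := by
    push_cast; ring
  rw [twm, h, norm_mul, Complex.norm_exp_ofReal_mul_I, mul_one]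

theorem t0_inv (χ : ℝ → ℝ) (z : ℂ) : twm (fun s => -χ s) (twm χ z) = z := by
  have h := t0_norm χ z
  rw [twm, h, twm, mul_assoc, ← Complex.exp_add]
  have h2 : (2 * Real.pi * Complex.I * (χ ‖z‖ : ℂ)) + 2 * Real.pi * Complex.I * ((-χ ‖z‖ : ℝ) : ℂ) = 0 := by
    push_cast; ring
  rw [h2, Complex.exp_zero, mul_one]

theorem t0_inv2 (χ : ℝ → ℝ) (z : ℂ) : twm χ (twm (fun s => -χ s) z) = z := by
  have h := t0_inv (fun s => -χ s) z
  simpa using h

open Classical in
/-- The extension by the identity. -/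
noncomputable def t0E {X : Type v} [TopologicalSpace X] (C : OpenPartialHomeomorph ℂ X)
    (P : unitInterval → ℝ → ℝ) (q : unitInterval × X) : X :=
  if q.2 ∈ C.target then C (twm (P q.1) (C.symm q.2)) else q.2

section
variable {X : Type v} [TopologicalSpace X] [T2Space X] (C : OpenPartialHomeomorph ℂ X)
  (hC : C.source = {z : ℂ | 1 / 2 < ‖z‖ ∧ ‖z‖ < 2}) (P : unitInterval → ℝ → ℝ)

include hC

theorem t0_src (χ : ℝ → ℝ) {z : ℂ} (hz : z ∈ C.source) : twm χ z ∈ C.source := by
  rw [hC] at hz ⊢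
  simpa [t0_norm] using hz

theorem t0_E_C (t : unitInterval) {z : ℂ} (hz : z ∈ C.source) :
    t0E C P (t, C z) = C (twm (P t) z) := by
  have h : C z ∈ C.target := C.map_source hz
  rw [t0E, if_pos h]
  show C (twm (P t) (C.symm (C z))) = _
  rw [C.left_inv hz]

theorem t0_E_out (t : unitInterval) {x : X} (hx : x ∉ C.target) : t0E C P (t, x) = x := by
  rw [t0E, if_neg hx]

theorem t0_E_maps (t : unitInterval) {x : X} (hx : x ∈ C.target) : t0E C P (t, x) ∈ C.target := by
  rw [t0E, if_pos hx]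
  exact C.map_source (t0_src C hC _ (C.map_target hx))

theorem t0_E_Q (hP1 : ∀ t z, (‖z‖ ≤ 3 / 5 ∨ 3 / 2 ≤ ‖z‖) → twm (P t) z = z) (t : unitInterval)
    {x : X} (hx : x ∉ C '' {z : ℂ | 3 / 5 ≤ ‖z‖ ∧ ‖z‖ ≤ 3 / 2}) : t0E C P (t, x) = x := by
  by_cases h : x ∈ C.target
  · rw [t0E, if_pos h]
    show C (twm (P t) (C.symm x)) = x
    rw [hP1 t (C.symm x) ?_, C.right_inv h]
    by_contra hcon
    push Not at hcon
    exact hx ⟨C.symm x, ⟨hcon.1.le, hcon.2.le⟩, C.right_inv h⟩
  · exact t0_E_out C hC P t h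

theorem t0_E_cont (hP : Continuous fun q : unitInterval × ℝ => P q.1 q.2)
    (hP1 : ∀ t z, (‖z‖ ≤ 3 / 5 ∨ 3 / 2 ≤ ‖z‖) → twm (P t) z = z) : Continuous (t0E C P) := by
  have hQc : IsCompact (C '' {z : ℂ | 3 / 5 ≤ ‖z‖ ∧ ‖z‖ ≤ 3 / 2}) := by
    refine IsCompact.image_of_continuousOn ?_ (C.continuousOn.mono ?_)
    · have h1 : IsCompact (closedBall (0 : ℂ) (3 / 2)) := isCompact_closedBall _ _
      have h2 : IsClosed {z : ℂ | 3 / 5 ≤ ‖z‖} := isClosed_le continuous_const continuous_norm
      refine (h1.inter_right h2).of_isClosed_subset ?_ ?_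
      · exact (isClosed_le continuous_const continuous_norm).inter
          (isClosed_le continuous_norm continuous_const)
      · rintro z ⟨h3, h4⟩
        exact ⟨by simpa using h4, h3⟩
    · rintro z ⟨h3, h4⟩
      rw [hC]
      exact ⟨by linarith, by linarith⟩
  have hQ : IsClosed (C '' {z : ℂ | 3 / 5 ≤ ‖z‖ ∧ ‖z‖ ≤ 3 / 2}) := hQc.isClosed
  rw [continuous_iff_continuousAt]
  rintro ⟨t, x⟩
  by_cases hx : x ∈ C.target
  · have hopen : IsOpen {q : unitInterval × X | q.2 ∈ C.target} :=
      C.open_target.preimage continuous_snd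
    have hc : ContinuousOn (fun q : unitInterval × X => C (twm (P q.1) (C.symm q.2)))
        {q : unitInterval × X | q.2 ∈ C.target} := by
      have hs : ContinuousOn (fun q : unitInterval × X => C.symm q.2)
          {q : unitInterval × X | q.2 ∈ C.target} :=
        C.continuousOn_symm.comp continuous_snd.continuousOn (fun q hq => hq)
      have ht : ContinuousOn (fun q : unitInterval × X => twm (P q.1) (C.symm q.2))
          {q : unitInterval × X | q.2 ∈ C.target} := by
        unfold twm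
        refine hs.mul ?_
        refine Complex.continuous_exp.comp_continuousOn ?_
        refine continuousOn_const.mul ?_
        refine Complex.continuous_ofReal.comp_continuousOn ?_
        have : ContinuousOn (fun q : unitInterval × X => (q.1, ‖C.symm q.2‖))
            {q : unitInterval × X | q.2 ∈ C.target} := continuousOn_fst.prodMk hs.norm
        exact hP.comp_continuousOn this
      refine C.continuousOn.comp ht ?_
      intro q hq
      exact t0_src C hC _ (C.map_target hq)
    have hca := hc.continuousAt (hopen.mem_nhds (x := (t, x)) hx)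
    refine hca.congr ?_
    filter_upwards [hopen.mem_nhds (x := (t, x)) hx] with q hq
    rw [t0E, if_pos hq]
  · have hxQ : x ∉ C '' {z : ℂ | 3 / 5 ≤ ‖z‖ ∧ ‖z‖ ≤ 3 / 2} := by
      rintro ⟨z, ⟨h3, h4⟩, rfl⟩
      apply hx
      apply C.map_source
      rw [hC]
      exact ⟨by linarith, by linarith⟩
    have hopen : IsOpen {q : unitInterval × X | q.2 ∉ C '' {z : ℂ | 3 / 5 ≤ ‖z‖ ∧ ‖z‖ ≤ 3 / 2}} :=
      hQ.isOpen_compl.preimage continuous_snd
    have hca : ContinuousAt (fun q : unitInterval × X => q.2) (t, x) := continuous_snd.continuousAt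
    refine hca.congr ?_
    filter_upwards [hopen.mem_nhds (x := (t, x)) hxQ] with q hq
    exact (t0_E_Q C hC P hP1 q.1 hq).symm

omit [T2Space X] in
theorem t0_E_inv (t : unitInterval) (x : X) :
    t0E C (fun t s => -P t s) (t, t0E C P (t, x)) = x := by
  by_cases h : x ∈ C.target
  · have h1 : t0E C P (t, x) = C (twm (P t) (C.symm x)) := by rw [t0E, if_pos h]
    have hs : twm (P t) (C.symm x) ∈ C.source := by
      have := C.map_target h
      rw [hC] at this ⊢
      simpa [t0_norm] using this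
    have h2 : C (twm (P t) (C.symm x)) ∈ C.target := C.map_source hs
    rw [h1, t0E, if_pos h2]
    show C (twm (fun s => -P t s) (C.symm (C (twm (P t) (C.symm x))))) = x
    rw [C.left_inv hs, t0_inv, C.right_inv h]
  · have h1 : t0E C P (t, x) = x := by rw [t0E, if_neg h]
    rw [h1, t0E, if_neg h]

omit [T2Space X] in
theorem t0_E_inv2 (t : unitInterval) (x : X) :
    t0E C P (t, t0E C (fun t s => -P t s) (t, x)) = x := by
  have h := t0_E_inv C hC (fun t s => -P t s) t x
  simpa using h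

/-- The homeomorphism at time `t`. -/
noncomputable def t0T (hP : Continuous fun q : unitInterval × ℝ => P q.1 q.2)
    (hP1 : ∀ t z, (‖z‖ ≤ 3 / 5 ∨ 3 / 2 ≤ ‖z‖) → twm (P t) z = z) (t : unitInterval) : X ≃ₜ X where
  toFun x := t0E C P (t, x)
  invFun x := t0E C (fun t s => -P t s) (t, x)
  left_inv x := t0_E_inv C hC P t x
  right_inv x := t0_E_inv2 C hC P t x
  continuous_toFun := (t0_E_cont C hC P hP hP1).comp (by fun_prop)
  continuous_invFun := by
    refine (t0_E_cont C hC (fun t s => -P t s) hP.neg ?_).comp (by fun_prop)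
    intro t z hz
    have h := t0_inv (P t) z
    rw [hP1 t z hz] at h
    exact h

end

/-- The family of profiles. -/
noncomputable def t0P (t : unitInterval) (s : ℝ) : ℝ := (1 - (t : ℝ)) * chi s + (t : ℝ) * cho s

theorem t0P_cont : Continuous fun q : unitInterval × ℝ => t0P q.1 q.2 := by
  unfold t0P chi cho
  fun_prop

theorem t0P_id (t : unitInterval) (z : ℂ) (hz : ‖z‖ ≤ 3 / 5 ∨ 3 / 2 ≤ ‖z‖) :
    twm (t0P t) z = z := by
  rcases hz with hz | hz
  · have h1 : chi ‖z‖ = 0 := by
      unfold chi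
      have : min 1 (5 * (‖z‖ - 3 / 5)) ≤ 0 := le_trans (min_le_right _ _) (by linarith)
      exact max_eq_left this
    have h2 : cho ‖z‖ = 0 := by
      unfold cho
      have : min 1 (4 * (‖z‖ - 5 / 4)) ≤ 0 := le_trans (min_le_right _ _) (by linarith)
      exact max_eq_left this
    have h3 : t0P t ‖z‖ = 0 := by rw [t0P, h1, h2]; ring
    rw [twm, h3]
    simp
  · have h1 : chi ‖z‖ = 1 := by
      unfold chi
      rw [min_eq_left (by linarith)]
      exact max_eq_right zero_le_one
    have h2 : cho ‖z‖ = 1 := by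
      unfold cho
      rw [min_eq_left (by linarith)]
      exact max_eq_right zero_le_one
    have h3 : t0P t ‖z‖ = 1 := by rw [t0P, h1, h2]; ring
    rw [twm, h3]
    simp

theorem goalT0 : GoalT0.{v} := by
  intro X _ _ C hC
  have h0 : t0P 0 = chi := by
    funext s
    simp [t0P]
  have h1 : t0P 1 = cho := by
    funext s
    simp [t0P]
  refine ⟨t0T C hC t0P t0P_cont t0P_id 0, t0T C hC t0P t0P_cont t0P_id 1, ⟨?_, ?_⟩, ⟨?_, ?_⟩, ?_,
    ⟨t0E C t0P, t0_E_cont C hC t0P t0P_cont t0P_id⟩, fun x => rfl, fun x => rfl, ?_, ?_, ?_⟩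
  · intro z hz
    show t0E C t0P (0, C z) = _
    rw [t0_E_C C hC t0P 0 hz, h0]
  · intro x hx
    exact t0_E_Q C hC t0P t0P_id 0 hx
  · intro z hz
    show t0E C t0P (1, C z) = _
    rw [t0_E_C C hC t0P 1 hz, h1]
  · intro x hx
    exact t0_E_Q C hC t0P t0P_id 1 hx
  · intro x hx
    exact ⟨t0_E_out C hC t0P 0 hx, t0_E_out C hC t0P 1 hx⟩
  · intro t x hx
    exact t0_E_out C hC t0P t hx
  · intro t x hx
    exact t0_E_maps C hC t0P t hx
  · intro t z hz
    have hzs : z ∈ C.source := by
      rw [hC]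
      exact ⟨by rw [hz]; norm_num, by rw [hz]; norm_num⟩
    show t0E C t0P (t, C z) = _
    rw [t0_E_C C hC t0P t hzs, twm, hz]
    have h3 : t0P t 1 = 1 - (t : ℝ) := by
      unfold t0P chi cho
      norm_num
    rw [h3]

end Pool.Agent.Helper55.LN
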